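import Pool.Agent.SigK.Pub
import Pool.Agent.SigK.Fin
import Pool.Agent.SigK.Cells
import Pool.Agent.SigK.Shp
import Pool.Agent.SigK.All

/-!
# MP_9fd1a9_co, Q1: the complete sphere-of-influence graphs

`K_n` (`n ≥ 2`) is a sphere-of-influence graph if and only if `n ≤ 8`.

`K_2, ..., K_8`: eight explicit points (`Fin.lean`).

`K_9` (and then `K_n` for all `n ≥ 9`) is impossible: the smallest disc is the unit disc at the
origin, its nearest neighbour is at `1`, and every other disc is described by a cell (11 ranges of
the curvature, 8 of the offset, 96 sectors of the angle).  Integer tests give the pairs of cells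
that cannot occur together; a backtracking search over the second disc of the configuration, carried
out by the kernel with certificates, shows that no seven further discs exist.  At most five discs are
far away (`LemF.lean`).
-/

namespace Pool.Agent.Results.MP_9fd1a9_co.CompleteGraphs

/-- `K_n` is a sphere-of-influence graph exactly for `2 ≤ n ≤ 8` -/
theorem result :
    {n : ℕ | 2 ≤ n ∧ SigK.IsSIG (⊤ : SimpleGraph (Fin n))} = Set.Icc 2 8 :=
  SigK.sig_complete (SigK.noNine_of_cert SigK.ind_shp SigK.first_ok SigK.all_chk)

end Pool.Agent.Results.MP_9fd1a9_co.CompleteGraphs
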